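import Pool.Agent.Q146.CovAsy

/-!
# Coverage forcing `k`-edge-connectivity of the distance graph

Definitions (in `Pool.Agent.Q146.CovConn`): `Plane` is the Euclidean plane, `Covers r P` says that
the closed discs of radius `r` about the points of `P` cover the plane, `distGraph r c P` is the
graph `G_c(P)` (different points of `P` at distance less than `c r` are adjacent),
`KEdgeConnected k G` says that `G` is connected and stays connected after the deletion of any set
of fewer than `k` edges, `good r k` is the set of all `c > 0` such that `G_c(P)` is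
`k`-edge-connected for every `P` that covers the plane. `Cov m s` says that the closed disc of
radius `s` about the origin is covered by the closed unit disc about the origin and `m` further
closed unit discs, and `rho m` is the supremum of these `s`.
-/

set_option autoImplicit false

open Set Pool.Agent.Q146.CovConn

namespace Pool.Agent.Results.MP_5da84a_co.EdgeConnectivityConstants

/-- The constant `c_k` for the radius `r`: the infimum of the good constants in the extended reals
(it is `⊤` if there is no good constant). -/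
noncomputable def cK (r : ℝ) (k : ℕ) : EReal := sInf ((fun c : ℝ => (c : EReal)) '' good r k)

theorem sInf_Ioi (a : ℝ) : sInf ((fun c : ℝ => (c : EReal)) '' Ioi a) = (a : EReal) := by
  apply IsGLB.sInf_eq
  constructor
  · rintro _ ⟨c, hc, rfl⟩
    exact EReal.coe_le_coe_iff.2 (le_of_lt hc)
  · intro b hb
    by_contra h
    push Not at h
    obtain ⟨x, hx1, hx2⟩ := EReal.lt_iff_exists_real_btwn.1 h
    have h1 := hb ⟨x, EReal.coe_lt_coe_iff.1 hx1, rfl⟩
    exact absurd h1 (not_le.2 hx2)

/-- For every radius `r > 0` and every `k ≥ 1` the good constants are exactly the `c > 1 + ρ`,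
where `ρ = rho (k - 1)` is the greatest radius of a disc that is covered by the concentric unit
disc and `k - 1` further unit discs. So `c_k = 1 + ρ` is finite and the infimum is never attained.
Values: `c_1 = c_2 = c_3 = 2`, `c_4 = 1 + 2/√3`, `c_5 = 1 + √2`, `c_6 = 1 + 1/sin(π/5)`,
`c_7 = 3`; and `√(κ k) - 5/2 ≤ c_k ≤ √(κ k) + 2` for all `k`, with `κ = 3√3/(2π)`. -/
theorem result :
    (∀ m : ℕ, IsGreatest {s | Cov m s} (rho m)) ∧
    (∀ (r : ℝ) (k : ℕ), 0 < r → 1 ≤ k → good r k = Ioi (1 + rho (k - 1))) ∧
    (∀ (r : ℝ) (k : ℕ), 0 < r → 1 ≤ k → cK r k = ((1 + rho (k - 1) : ℝ) : EReal) ∧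
      ∀ c ∈ good r k, cK r k ≠ (c : EReal)) ∧
    (rho 0 = 1 ∧ rho 1 = 1 ∧ rho 2 = 1 ∧ rho 3 = 2 / Real.sqrt 3 ∧ rho 4 = Real.sqrt 2 ∧
      rho 5 = 1 / Real.sin (Real.pi / 5) ∧ rho 6 = 2) ∧
    (∀ k : ℕ, 1 ≤ k →
      Real.sqrt (3 * Real.sqrt 3 / (2 * Real.pi) * k) - 5 / 2 ≤ 1 + rho (k - 1) ∧
      1 + rho (k - 1) ≤ Real.sqrt (3 * Real.sqrt 3 / (2 * Real.pi) * k) + 2) := by
  refine ⟨isGreatest_rho, fun r k hr hk => good_eq hr hk, fun r k hr hk => ?_, ?_, fun k hk => ?_⟩
  · have h1 : cK r k = ((1 + rho (k - 1) : ℝ) : EReal) := by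
      rw [cK, good_eq hr hk, sInf_Ioi]
    refine ⟨h1, fun c hc h => ?_⟩
    rw [good_eq hr hk] at hc
    rw [h1, EReal.coe_eq_coe_iff] at h
    exact absurd h (ne_of_lt hc)
  · refine ⟨rho_le_two (by norm_num), rho_le_two (by norm_num), rho_le_two le_rfl, ?_, ?_, ?_, ?_⟩
    · rw [rho_eq_sin le_rfl (by norm_num)]
      push_cast
      rw [Real.sin_pi_div_three]
      field_simp
    · rw [rho_eq_sin (by norm_num) (by norm_num)]
      push_cast
      rw [Real.sin_pi_div_four]
      have h2 : Real.sqrt 2 ^ 2 = 2 := Real.sq_sqrt (by norm_num)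
      have h3 : 0 < Real.sqrt 2 := by positivity
      field_simp
      linarith
    · rw [rho_eq_sin (by norm_num) (by norm_num)]
      push_cast
      rfl
    · rw [rho_eq_sin (by norm_num) le_rfl]
      push_cast
      rw [Real.sin_pi_div_six]
      norm_num
  · obtain ⟨m, rfl⟩ : ∃ m, k = m + 1 := ⟨k - 1, by omega⟩
    have h1 := rho_lower m
    have h2 := rho_upper m
    unfold kap at h1 h2
    simp only [Nat.add_sub_cancel]
    push_cast
    constructor <;> linarith

end Pool.Agent.Results.MP_5da84a_co.EdgeConnectivityConstants
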